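import Pool.Agent.MP_68f07c_an.Proof

namespace Pool.Agent.Results.MP_68f07c_an.Counterexample

open Pool.Agent.MP_68f07c_an

theorem result (𝕜 : Type) [RCLike 𝕜] :
    ∃ (E : Type) (_ : NormedAddCommGroup E) (_ : NormedSpace 𝕜 E) (_ : CompleteSpace E)
      (x : ℕ → E) (f : ℕ → StrongDual 𝕜 E),
      (∀ i j, f i (x j) = if i = j then 1 else 0) ∧
      IsBasicSequence 𝕜 x ∧ IsBasicSequence 𝕜 f ∧
      (∀ n, ‖x n‖ = 1) ∧ (∀ n, ‖f n‖ ≤ 2) ∧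
      IsClosed ((closedSpan 𝕜 x ⊔ preAnnihilator 𝕜 (closedSpan 𝕜 f : Set (StrongDual 𝕜 E)) :
        Submodule 𝕜 E) : Set E) ∧
      ¬ EquivalentSequences 𝕜 f (fun n => restrictFunctional 𝕜 (closedSpan 𝕜 x) (f n)) :=
  main 𝕜

end Pool.Agent.Results.MP_68f07c_an.Counterexample
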